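import Pool.Agent.H899_CR.Final

/-!
# The chemical radius of atoms and positive ions

For every ground state `ψ` of `N = n + 1 ≤ Z` electrons in the field of a nucleus of charge `Z`,
`R(ψ) ≤ C Z^(-1/3) (Z/(Z-N+1))^((3+√29)/10)` with a universal constant `C`. For neutral atoms
(`Z = N`) this is `R(ψ) ≤ C N^((3√29-1)/30)`, where `(3√29-1)/30 ≈ 0.505`.
-/

set_option autoImplicit false

noncomputable section

namespace Pool.Agent.Results.MP_5e0526_mp.ChemicalRadius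

open Pool.Agent.H899_CR

theorem result : ∃ C : ℝ, 0 < C ∧ ∀ (Z : ℝ) (n : ℕ), (n : ℝ) + 1 ≤ Z →
    ∀ (ψ : WF (n + 1)) (g : (Fin (n + 1) → Fin 2) → Fin (n + 1) → Fin 3 →
      (Fin (n + 1) → E3) → ℂ), IsGS Z ψ g →
      chemRad ψ ≤ C * Z ^ (-(1 / 3) : ℝ) * (Z / (Z - n)) ^ ((3 + √29) / 10) := by
  obtain ⟨_, _, _, R, _, _, _, hR, h⟩ := main_en
  refine ⟨R, hR, fun Z n hn ψ g hψ => ?_⟩
  have hn0 : (0 : ℝ) ≤ n := Nat.cast_nonneg n
  have hZ : 1 ≤ Z := by linarith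
  have hQ : 0 < Z - n := by linarith
  obtain ⟨μ, hμ, h1⟩ := (h Z hZ).2.2 n hn
  have h2 := gs_outside hψ hμ (R * Z ^ (-(1 / 3) : ℝ) * (Z / (Z - n)) ^ (aexp / 2))
  have h3 : DD Z (n + 1) μ (R * Z ^ (-(1 / 3) : ℝ) * (Z / (Z - n)) ^ (aexp / 2)) / μ ≤ 1 := by
    rw [div_le_one hμ]; exact h1
  have e : aexp / 2 = (3 + √29) / 10 := by unfold aexp; ring
  rw [e] at h2 h3
  refine csInf_le ⟨0, fun x hx => hx.1⟩ ⟨?_, h2.trans h3⟩
  have hZ0 : 0 < Z := by linarith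
  positivity

end Pool.Agent.Results.MP_5e0526_mp.ChemicalRadius
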