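import Pool.Agent.H899_CR.GsE

/-!
# A lower bound for the ionization energies of atoms and positive ions

`E_{N-1,Z} - E_{N,Z} ≥ c (Z-N+1)^((3+√29)/5) Z^(-(3√29-11)/15)` for all `1 ≤ N ≤ Z`, with a
universal constant `c > 0`. For neutral atoms (`Z = N`) this is `E_{N-1,N} - E_{N,N} ≥ c N^(-0.3437…)`.
-/

set_option autoImplicit false

noncomputable section

namespace Pool.Agent.Results.MP_5e0526_mp.IonizationEnergy

open Pool.Agent.H899_CR

theorem result : ∃ c : ℝ, 0 < c ∧ ∀ (Z : ℝ) (N : ℕ), 1 ≤ N → (N : ℝ) ≤ Z →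
    c * (Z - N + 1) ^ ((3 + √29) / 5) * Z ^ (-((3 * √29 - 11) / 15)) ≤
      gsE Z (N - 1) - gsE Z N := by
  obtain ⟨c, _, _, _, hc, _, _, _, h⟩ := main_en
  refine ⟨c, hc, fun Z N hN hNZ => ?_⟩
  obtain ⟨k, rfl⟩ : ∃ k, N = k + 1 := ⟨N - 1, by omega⟩
  have hk0 : (0 : ℝ) ≤ k := Nat.cast_nonneg k
  push_cast at hNZ
  have h1 := (h Z (by linarith)).1 k hNZ
  rw [Nat.add_sub_cancel, gsE_eq, gsE_eq]
  have e1 : Z - ((k + 1 : ℕ) : ℝ) + 1 = Z - k := by push_cast; ring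
  have e2 : -((3 * √29 - 11) / 15) = -(aexp - 4 / 3) := by unfold aexp; ring
  rw [e1, e2]
  exact h1

end Pool.Agent.Results.MP_5e0526_mp.IonizationEnergy
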