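import Pool.Agent.H899_CR.Final

/-!
# The number of electrons outside of a ball

For every ground state `ψ` of `N = n + 1 ≤ Z` electrons in the field of a nucleus of charge `Z` and
every `s > 0`, the expected number of electrons at distance larger than `s` from the nucleus is at
most `C Z^((9-√29)/6) s^(-(√29-3)/2)` with a universal constant `C`.
-/

set_option autoImplicit false

noncomputable section

namespace Pool.Agent.Results.MP_5e0526_mp.OuterElectrons

open Pool.Agent.H899_CR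

theorem result : ∃ C : ℝ, 0 < C ∧ ∀ (Z : ℝ) (n : ℕ), (n : ℝ) + 1 ≤ Z →
    ∀ (ψ : WF (n + 1)) (g : (Fin (n + 1) → Fin 2) → Fin (n + 1) → Fin 3 →
      (Fin (n + 1) → E3) → ℂ), IsGS Z ψ g → ∀ s : ℝ, 0 < s →
      outside ψ s ≤ C * Z ^ ((9 - √29) / 6) * s ^ (-((√29 - 3) / 2)) := by
  obtain ⟨_, C, M, _, _, hC, hM, _, h⟩ := main_en
  obtain ⟨a1, _, _, a4⟩ := aexp_facts
  have ha0 : 0 < aexp := by linarith
  refine ⟨C * M ^ (1 / aexp), by positivity, fun Z n hn ψ g hψ s hs => ?_⟩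
  have hn0 : (0 : ℝ) ≤ n := Nat.cast_nonneg n
  have hZ : 1 ≤ Z := by linarith
  have hZ0 : 0 < Z := by linarith
  set μ := M * Z ^ (2 / 3 : ℝ) / s ^ 2 with hμ
  have hμ0 : 0 < μ := by positivity
  have h1 := (h Z hZ).2.1 (n + 1) (by push_cast; linarith) s hs μ hμ0
  rw [max_eq_left (le_refl μ)] at h1
  have h2 := gs_outside hψ hμ0 s
  refine h2.trans ?_
  rw [div_le_iff₀ hμ0]
  refine h1.trans (le_of_eq ?_)
  have e1 : Z ^ (aexp - 4 / 3) * μ = M * (Z ^ (aexp - 2 / 3) * (s ^ 2)⁻¹) := by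
    have : Z ^ (aexp - 4 / 3) * Z ^ (2 / 3 : ℝ) = Z ^ (aexp - 2 / 3) := by
      rw [← Real.rpow_add hZ0]
      congr 1
      ring
    rw [← this, hμ]
    ring
  have e2 : (Z ^ (aexp - 4 / 3) * μ) ^ (1 / aexp) =
      M ^ (1 / aexp) * (Z ^ ((9 - √29) / 6) * s ^ (-((√29 - 3) / 2))) := by
    rw [e1, Real.mul_rpow hM.le (by positivity), Real.mul_rpow (by positivity) (by positivity)]
    congr 2
    · rw [← Real.rpow_mul hZ0.le]
      congr 1
      have : (aexp - 2 / 3) * (1 / aexp) = 1 - 2 / 3 * (1 / aexp) := by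
        field_simp
      rw [this, a4]
      ring
    · rw [a4, ← Real.rpow_natCast, ← Real.rpow_neg hs.le, ← Real.rpow_mul hs.le]
      congr 1
      push_cast
      ring
  rw [e2]
  ring

end Pool.Agent.Results.MP_5e0526_mp.OuterElectrons
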